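import Pool.Agent.V11266.FibD
import Pool.Agent.V11266.FibG
set_option autoImplicit false

/-!
# Prefix palindromic length of the Fibonacci word: the exact value of `λ`

`λ = limsup PPL_f(n) / ln n = 1 / (3 ln φ)`, where `φ` is the golden ratio.
-/

namespace Pool.Agent.Results.MP_3353e5_co.ExactLambda

open Pool.Agent.H308R2.FibPal Pool.Agent.V11266.FibPPL Filter

lemma gold_le_fib (n : ℕ) : Real.goldenRatio ^ n ≤ (Nat.fib (n + 2) : ℝ) ∧
    Real.goldenRatio ^ (n + 1) ≤ (Nat.fib (n + 3) : ℝ) := by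
  induction n with
  | zero =>
    have h : (Nat.fib 3 : ℝ) = 2 := by norm_num [Nat.fib]
    refine ⟨by simp, ?_⟩
    simp only [zero_add, pow_one]
    rw [h]
    exact Real.goldenRatio_lt_two.le
  | succ n ih =>
    refine ⟨ih.2, ?_⟩
    have e : Real.goldenRatio ^ (n + 1 + 1) = Real.goldenRatio ^ n + Real.goldenRatio ^ (n + 1) := by
      have := Real.goldenRatio_sq
      rw [pow_succ, pow_succ, mul_assoc, ← sq, this]; ring
    have e2 : (Nat.fib (n + 1 + 3) : ℝ) = Nat.fib (n + 2) + Nat.fib (n + 3) := by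
      have : Nat.fib (n + 2 + 2) = Nat.fib (n + 2) + Nat.fib (n + 2 + 1) := Nat.fib_add_two
      exact_mod_cast this
    rw [e, e2]
    exact add_le_add ih.1 ih.2

lemma fib_le_gold (n : ℕ) : (Nat.fib (n + 1) : ℝ) ≤ Real.goldenRatio ^ n ∧
    (Nat.fib (n + 2) : ℝ) ≤ Real.goldenRatio ^ (n + 1) := by
  induction n with
  | zero =>
    refine ⟨by simp, ?_⟩
    simp only [zero_add, pow_one]
    have : (Nat.fib 2 : ℝ) = 1 := by norm_num [Nat.fib]
    rw [this]
    exact Real.one_lt_goldenRatio.le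
  | succ n ih =>
    refine ⟨ih.2, ?_⟩
    have e : Real.goldenRatio ^ (n + 1 + 1) = Real.goldenRatio ^ n + Real.goldenRatio ^ (n + 1) := by
      have := Real.goldenRatio_sq
      rw [pow_succ, pow_succ, mul_assoc, ← sq, this]; ring
    have e2 : (Nat.fib (n + 1 + 2) : ℝ) = Nat.fib (n + 1) + Nat.fib (n + 2) := by
      have : Nat.fib (n + 1 + 2) = Nat.fib (n + 1) + Nat.fib (n + 1 + 1) := Nat.fib_add_two
      exact_mod_cast this
    rw [e, e2]
    exact add_le_add ih.1 ih.2

lemma logφ_pos : 0 < Real.log Real.goldenRatio := Real.log_pos Real.one_lt_goldenRatio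

lemma ppl_le_self {u : ℕ → Bool} (n : ℕ) : PPL u n ≤ n := by
  induction n with
  | zero => exact (ppl_zero u).le
  | succ n ih =>
    obtain ⟨L, hL1, hL2, hL3⟩ := ppl_spec u n
    have : PPL u (n + 1) ≤ PPL u n + 1 := by
      apply Nat.sInf_le
      refine ⟨L ++ [[u (n + 1)]], by simp [hL1], ?_, ?_⟩
      · intro p hp
        rcases List.mem_append.mp hp with h | h
        · exact hL2 p h
        · have : p = [u (n + 1)] := by simpa using h
          subst this
          simp
      · rw [List.flatten_append, hL3, block_succ]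
        simp
    omega

/-- the upper bound, for every `n ≥ 1` -/
lemma upper {f : ℕ → Bool} (hf : IsFibonacciWord f) (n : ℕ) (hn : 1 ≤ n) :
    (PPL f n : ℝ) ≤ Real.log n / (3 * Real.log Real.goldenRatio) + 16 := by
  have hφ := logφ_pos
  rcases Nat.lt_or_ge n 4 with h | h
  · have h1 : (PPL f n : ℝ) ≤ 3 := by
      have := ppl_le_self (u := f) n
      exact_mod_cast (by omega : PPL f n ≤ 3)
    have h2 : 0 ≤ Real.log n / (3 * Real.log Real.goldenRatio) :=
      div_nonneg (Real.log_natCast_nonneg n) (by positivity)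
    linarith
  · obtain ⟨N, hN, h1, h2⟩ := upper_ppl hf h
    obtain ⟨M, rfl⟩ : ∃ M, N = M + 1 := ⟨N - 1, by omega⟩
    have h3 := (gold_le_fib M).1
    have h4 : (Nat.fib (M + 2) : ℝ) ≤ n := by exact_mod_cast h1
    have h5 : (M : ℝ) * Real.log Real.goldenRatio ≤ Real.log n := by
      rw [← Real.log_pow]
      exact Real.log_le_log (pow_pos Real.goldenRatio_pos _) (h3.trans h4)
    have h6 : (M : ℝ) / 3 ≤ Real.log n / (3 * Real.log Real.goldenRatio) := by
      rw [div_le_div_iff₀ (by norm_num) (by positivity)]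
      linarith
    have h7 : (3 : ℝ) * PPL f n ≤ M + 1 + 45 := by exact_mod_cast h2
    linarith

/-- the lower bound, for infinitely many `n` -/
lemma lower {f : ℕ → Bool} (hf : IsFibonacciWord f) (N : ℕ) : ∃ n, N ≤ n ∧
    Real.log n / (3 * Real.log Real.goldenRatio) - 1 / 3 ≤ (PPL f n : ℝ) := by
  have hφ := logφ_pos
  obtain ⟨n, h1, h2⟩ := lower_record hf N
  have h3 := ppl_le_self (u := f) n
  refine ⟨n, by omega, ?_⟩
  have hn : 0 < n := by omega
  have h4 := (fib_le_gold (6 * (N + 1) + 1)).1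
  have h5 : (n : ℝ) ≤ Real.goldenRatio ^ (6 * (N + 1) + 1) := by
    refine le_trans ?_ h4
    exact_mod_cast h1.le
  have h6 : Real.log n ≤ ((6 * (N + 1) + 1 : ℕ) : ℝ) * Real.log Real.goldenRatio := by
    rw [← Real.log_pow]
    exact Real.log_le_log (by exact_mod_cast hn) h5
  have h7 : Real.log n / (3 * Real.log Real.goldenRatio) ≤ ((6 * (N + 1) + 1 : ℕ) : ℝ) / 3 := by
    rw [div_le_div_iff₀ (by positivity) (by norm_num)]
    linarith
  have h8 : (2 * ((N : ℝ) + 1)) ≤ PPL f n := by exact_mod_cast h2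
  push_cast at h7
  linarith

/-- The Fibonacci word `f` exists, and
`λ = limsup PPL_f(n) / ln n = 1 / (3 ln φ)`, with bounded error in both directions. -/
theorem result :
    (∃ f : ℕ → Bool, IsFibonacciWord f) ∧
    ∀ f : ℕ → Bool, IsFibonacciWord f →
      limsup (fun n : ℕ => (PPL f n : ℝ) / Real.log n) atTop =
        1 / (3 * Real.log Real.goldenRatio) ∧
      (∀ n : ℕ, 1 ≤ n →
        (PPL f n : ℝ) ≤ Real.log n / (3 * Real.log Real.goldenRatio) + 16) ∧
      (∀ N : ℕ, ∃ n : ℕ, N ≤ n ∧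
        Real.log n / (3 * Real.log Real.goldenRatio) - 1 / 3 ≤ (PPL f n : ℝ)) := by
  refine ⟨⟨mw, mw_fixed⟩, fun f hf => ⟨?_, upper hf, lower hf⟩⟩
  have hφ := logφ_pos
  set L : ℝ := 1 / (3 * Real.log Real.goldenRatio) with hL
  have hlog : Tendsto (fun n : ℕ => Real.log n) atTop atTop :=
    Real.tendsto_log_atTop.comp tendsto_natCast_atTop_atTop
  have hub : ∀ᶠ n : ℕ in atTop, (PPL f n : ℝ) / Real.log n ≤ L + 16 / Real.log n := by
    filter_upwards [eventually_ge_atTop 2] with n hn
    have h1 : 0 < Real.log n := Real.log_pos (by exact_mod_cast hn)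
    have h2 := upper hf n (by omega)
    rw [div_le_iff₀ h1]
    have h3 : (L + 16 / Real.log n) * Real.log n = Real.log n * L + 16 := by
      field_simp
    rw [h3, hL]
    rw [div_eq_mul_one_div] at h2
    exact h2
  have htend : Tendsto (fun n : ℕ => L + 16 / Real.log n) atTop (nhds L) := by
    have : Tendsto (fun n : ℕ => 16 / Real.log n) atTop (nhds 0) := hlog.const_div_atTop 16
    simpa using tendsto_const_nhds.add this
  have hpos : ∀ n : ℕ, 0 ≤ (PPL f n : ℝ) / Real.log n := fun n =>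
    div_nonneg (Nat.cast_nonneg _) (Real.log_natCast_nonneg n)
  have hcob : IsCoboundedUnder (· ≤ ·) atTop (fun n : ℕ => (PPL f n : ℝ) / Real.log n) :=
    (isBoundedUnder_of ⟨0, hpos⟩ : IsBoundedUnder (· ≥ ·) atTop _).isCoboundedUnder_flip
  have hbdd : IsBoundedUnder (· ≤ ·) atTop (fun n : ℕ => (PPL f n : ℝ) / Real.log n) :=
    htend.isBoundedUnder_le.mono_le hub
  apply le_antisymm
  · calc limsup (fun n : ℕ => (PPL f n : ℝ) / Real.log n) atTop
        ≤ limsup (fun n : ℕ => L + 16 / Real.log n) atTop :=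
          limsup_le_limsup hub hcob htend.isBoundedUnder_le
      _ = L := htend.limsup_eq
  · apply le_of_forall_pos_sub_le
    intro ε hε
    apply le_limsup_of_frequently_le ?_ hbdd
    rw [frequently_atTop]
    intro N
    obtain ⟨M, hM⟩ := (hlog.eventually_ge_atTop (1 / (3 * ε))).exists_forall_of_atTop
    obtain ⟨n, hn1, hn2⟩ := lower hf (max N (max M 2))
    refine ⟨n, le_trans (le_max_left _ _) hn1, ?_⟩
    have h1 : 2 ≤ n := le_trans (le_trans (le_max_right _ _) (le_max_right _ _)) hn1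
    have h2 : M ≤ n := le_trans (le_trans (le_max_left _ _) (le_max_right _ _)) hn1
    have h3 : 0 < Real.log n := Real.log_pos (by exact_mod_cast h1)
    have h4 := hM n h2
    rw [le_div_iff₀ h3]
    have h5 : 1 / 3 ≤ ε * Real.log n := by
      rw [div_le_iff₀ (by positivity)] at h4
      linarith
    rw [div_eq_mul_one_div, ← hL] at hn2
    linarith

end Pool.Agent.Results.MP_3353e5_co.ExactLambda
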